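import Mathlib

set_option autoImplicit false

namespace Pool.Agent.Results.MP_5ca9a4_co.Counter

open SimpleGraph

/-- No broken cycle (a path with at least two edges whose ends are adjacent) is monochromatic. -/
def StronglyWoody {V K : Type} (G : SimpleGraph V) (c : Sym2 V → K) : Prop :=
  ∀ (u v : V) (p : G.Walk u v), p.IsPath → 2 ≤ p.length → G.Adj v u → ¬ ∃ k, ∀ e ∈ p.edges, c e = k

def el : List (ℕ × ℕ) := [(0, 1), (0, 2), (0, 3), (0, 4), (1, 2), (1, 3), (1, 4),
  (2, 5), (3, 5), (2, 6), (3, 6), (2, 7), (4, 7), (2, 8), (4, 8), (3, 9), (4, 9), (3, 10), (4, 10)]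

def G : SimpleGraph (Fin 11) where
  Adj u v := (u.val, v.val) ∈ el ∨ (v.val, u.val) ∈ el
  symm := ⟨fun _ _ h => h.symm⟩
  loopless := ⟨by decide⟩

instance : DecidableRel G.Adj := fun _ _ => by unfold G; infer_instance

variable {c : Sym2 (Fin 11) → Fin 3}

lemma tri (h : StronglyWoody G c) (u w v : Fin 11) (a : G.Adj u w) (b : G.Adj w v)
    (d : G.Adj v u) : c s(u, w) ≠ c s(w, v) := fun e =>
  h u v (.cons a (.cons b .nil)) (by simp [a.ne, b.ne, d.ne']) (by simp) d
    ⟨c s(w, v), by simpa using e⟩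

lemma quad (h : StronglyWoody G c) (u w x v : Fin 11) (a : G.Adj u w) (b : G.Adj w x)
    (f : G.Adj x v) (d : G.Adj v u) (n1 : u ≠ x) (n2 : w ≠ v) :
    ¬ (c s(u, w) = c s(x, v) ∧ c s(w, x) = c s(x, v)) := fun e =>
  h u v (.cons a (.cons b (.cons f .nil))) (by simp [a.ne, b.ne, f.ne, d.ne', n1, n2]) (by simp) d
    ⟨c s(x, v), by simpa using e⟩

lemma pair (h : StronglyWoody G c) (w w' x y : Fin 11) (a0 : G.Adj 0 w) (a1 : G.Adj 1 w)
    (b0 : G.Adj 0 w') (b1 : G.Adj 1 w') (xw : G.Adj x w) (xw' : G.Adj x w') (yw : G.Adj y w)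
    (yw' : G.Adj y w') (n : w ≠ w') (nxy : x ≠ y) (x0 : x ≠ 0) (x1 : x ≠ 1) (y0 : y ≠ 0)
    (y1 : y ≠ 1) : c s(0, w) ≠ c s(0, w') := by
  have a01 : G.Adj 0 1 := by decide
  have t1 := tri h 0 w 1 a0 a1.symm a01.symm
  have t2 := tri h w 0 1 a0.symm a01 a1
  have t3 := tri h w 1 0 a1.symm a01.symm a0
  have t4 := tri h 0 w' 1 b0 b1.symm a01.symm
  have t5 := tri h w' 0 1 b0.symm a01 b1
  have t6 := tri h w' 1 0 b1.symm a01.symm b0
  have q1 := quad h x w 0 w' xw a0.symm b0 xw'.symm x0 n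
  have q2 := quad h x w 1 w' xw a1.symm b1 xw'.symm x1 n
  have q3 := quad h x w' 0 w xw' b0.symm a0 xw.symm x0 n.symm
  have q4 := quad h x w' 1 w xw' b1.symm a1 xw.symm x1 n.symm
  have q5 := quad h y w 0 w' yw a0.symm b0 yw'.symm y0 n
  have q6 := quad h y w 1 w' yw a1.symm b1 yw'.symm y1 n
  have q7 := quad h y w x w' yw xw.symm xw' yw'.symm nxy.symm n
  rw [Sym2.eq_swap (a := w) (b := 0), Sym2.eq_swap (a := w) (b := 1),
    Sym2.eq_swap (a := w') (b := 0), Sym2.eq_swap (a := w') (b := 1),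
    Sym2.eq_swap (a := 1) (b := 0), Sym2.eq_swap (a := w) (b := x)] at *
  omega

/-- An 11-vertex graph with colouring number at most 3 and strong arboricity at least 4. -/
theorem result : ∃ (n : ℕ) (G : SimpleGraph (Fin n)) (r : ℕ),
    (∀ v, {w | G.Adj v w ∧ w < v}.ncard < r) ∧
    ¬ ∃ c : Sym2 (Fin n) → Fin r, StronglyWoody G c := by
  refine ⟨11, G, 3, fun v => ?_, fun ⟨c, h⟩ => ?_⟩
  · rw [Set.ncard_eq_toFinset_card']
    revert v; decide +kernel
  have a01 : G.Adj 0 1 := by decide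
  have p1 := pair h 2 3 5 6 (by decide) (by decide) (by decide) (by decide) (by decide) (by decide)
    (by decide) (by decide) (by decide) (by decide) (by decide) (by decide) (by decide) (by decide)
  have p2 := pair h 2 4 7 8 (by decide) (by decide) (by decide) (by decide) (by decide) (by decide)
    (by decide) (by decide) (by decide) (by decide) (by decide) (by decide) (by decide) (by decide)
  have p3 := pair h 3 4 9 10 (by decide) (by decide) (by decide) (by decide) (by decide) (by decide)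
    (by decide) (by decide) (by decide) (by decide) (by decide) (by decide) (by decide) (by decide)
  have t1 := tri h 1 0 2 a01.symm (by decide) (by decide)
  have t2 := tri h 1 0 3 a01.symm (by decide) (by decide)
  have t3 := tri h 1 0 4 a01.symm (by decide) (by decide)
  omega

end Pool.Agent.Results.MP_5ca9a4_co.Counter
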